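import Pool.Agent.K3h8.GG.Stm2

/-! Project GG (helper8), brick K0: there is no odd letter. -/

set_option autoImplicit false

open Equiv (Perm swap)

namespace Pool.Agent.K3h72.GG

open Pool.Agent.K3h8.GG

theorem cons_swap {A : Type} {n : ℕ} (a : A) (w : Fin n → A) (i : Fin n) :
    (Fin.cons a w : Fin (n + 1) → A) ∘ (swap 0 i.succ) =
      Fin.cons (w i) (Function.update w i a) := by
  funext j
  refine Fin.cases ?_ (fun j => ?_) j
  · simp
  · by_cases hj : j = i
    · subst hj; simp
    · have h1 : j.succ ≠ i.succ := fun h => hj (Fin.succ_injective _ h)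
      simp [Equiv.swap_apply_of_ne_of_ne (Fin.succ_ne_zero j) h1, Function.update_of_ne hj]

theorem claim {p k n : ℕ} {f : (Fin (n + 1) → Fin (p + 1) ⊕ Fin k) → ℚ}
    (hf : f ∈ FF p k (n + 1))
    (hrep : ∀ (a : Fin (p + 1)) (j : Fin k), ∀ w : Fin (n + 1) → Fin (p + 1) ⊕ Fin k,
      (∀ i, w i ≠ Sum.inr j) →
      ∑ i, (if w i = Sum.inl a then f (Function.update w i (Sum.inr j)) else 0) = 0)
    (hJ : ∑ i : Fin n, actA (Fin (p + 1) ⊕ Fin k) (n + 1) (swap 0 i.succ) f = (-(p : ℚ)) • f)
    (j : Fin k) (w' : Fin n → Fin (p + 1) ⊕ Fin k) : f (Fin.cons (Sum.inr j) w') = 0 := by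
  classical
  by_contra hF
  obtain ⟨hanti, hex⟩ := hf
  have hex' := hex _ hF
  -- the label `j` is used only at the place `0`
  have hj : ∀ i, w' i ≠ Sum.inr j := by
    intro i hi
    obtain ⟨i0, -, hu⟩ := hex' j
    have h1 := hu 0 (by simp)
    have h2 := hu i.succ (by simpa using hi)
    exact Fin.succ_ne_zero i (h2.trans h1.symm)
  have hl : ∀ l : Fin k, l ≠ j → ∃ i, w' i = Sum.inr l ∧ ∀ i', w' i' = Sum.inr l → i' = i := by
    intro l hlj
    obtain ⟨i0, hi0, hu⟩ := hex' l
    rcases Fin.eq_zero_or_eq_succ i0 with rfl | ⟨i, rfl⟩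
    · exfalso
      apply hlj
      simp only [Fin.cons_zero] at hi0
      exact (Sum.inr_injective hi0).symm
    · refine ⟨i, by simpa using hi0, fun i' hi' => ?_⟩
      exact Fin.succ_injective _ (hu i'.succ (by simpa using hi'))
  have hval := congrFun hJ (Fin.cons (Sum.inr j) w')
  rw [Finset.sum_apply] at hval
  have h1 : ∀ i : Fin n, actA (Fin (p + 1) ⊕ Fin k) (n + 1) (swap 0 i.succ) f
      (Fin.cons (Sum.inr j) w') =
      ∑ x : Fin (p + 1) ⊕ Fin k,
        if w' i = x then f (Fin.cons x (Function.update w' i (Sum.inr j))) else 0 := by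
    intro i
    rw [actA_apply, cons_swap, Finset.sum_ite_eq, if_pos (Finset.mem_univ _)]
  rw [Finset.sum_congr rfl fun i _ => h1 i, Finset.sum_comm, Fintype.sum_sum_type] at hval
  have heven : ∀ b : Fin (p + 1),
      (∑ i : Fin n, if w' i = Sum.inl b then
        f (Fin.cons (Sum.inl b) (Function.update w' i (Sum.inr j))) else 0) =
        - f (Fin.cons (Sum.inr j) w') := by
    intro b
    have h2 := hrep b j (Fin.cons (Sum.inl b) w') (by
      intro i
      refine Fin.cases ?_ (fun i => ?_) i
      · simp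
      · simpa using hj i)
    rw [Fin.sum_univ_succ] at h2
    have h3 : (if (Fin.cons (Sum.inl b) w' : Fin (n + 1) → Fin (p + 1) ⊕ Fin k) 0 = Sum.inl b then
        f (Function.update (Fin.cons (Sum.inl b) w' : Fin (n + 1) → Fin (p + 1) ⊕ Fin k) 0
          (Sum.inr j)) else 0) = f (Fin.cons (Sum.inr j) w') := by
      rw [if_pos (by simp)]
      congr 1
      exact Fin.update_cons_zero _ _ _
    have h4 : ∀ i : Fin n,
        (if (Fin.cons (Sum.inl b) w' : Fin (n + 1) → Fin (p + 1) ⊕ Fin k) i.succ = Sum.inl b then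
        f (Function.update (Fin.cons (Sum.inl b) w' : Fin (n + 1) → Fin (p + 1) ⊕ Fin k) i.succ
          (Sum.inr j)) else 0) =
        if w' i = Sum.inl b then
          f (Fin.cons (Sum.inl b) (Function.update w' i (Sum.inr j))) else 0 := by
      intro i
      have h5 : Function.update (Fin.cons (Sum.inl b) w' : Fin (n + 1) → Fin (p + 1) ⊕ Fin k)
          i.succ (Sum.inr j) = Fin.cons (Sum.inl b) (Function.update w' i (Sum.inr j)) :=
        (Fin.cons_update _ _ _ _).symm
      rw [Fin.cons_succ, h5]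
    rw [h3, Finset.sum_congr rfl fun i _ => h4 i] at h2
    linarith
  have hodd : ∀ l : Fin k,
      (∑ i : Fin n, if w' i = Sum.inr l then
        f (Fin.cons (Sum.inr l) (Function.update w' i (Sum.inr j))) else 0) =
        if l = j then 0 else - f (Fin.cons (Sum.inr j) w') := by
    intro l
    by_cases hlj : l = j
    · rw [if_pos hlj]
      refine Finset.sum_eq_zero fun i _ => ?_
      rw [if_neg]
      rw [hlj]
      exact hj i
    · rw [if_neg hlj]
      obtain ⟨i0, hi0, hu⟩ := hl l hlj
      rw [Finset.sum_eq_single i0]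
      · rw [if_pos hi0]
        have h6 : (Fin.cons (Sum.inr l) (Function.update w' i0 (Sum.inr j)) :
            Fin (n + 1) → Fin (p + 1) ⊕ Fin k) =
            Sum.map id (swap j l) ∘ (Fin.cons (Sum.inr j) w') := by
          funext x
          refine Fin.cases ?_ (fun i => ?_) x
          · simp
          · rw [Function.comp_apply, Fin.cons_succ, Fin.cons_succ]
            by_cases hi : i = i0
            · subst hi
              rw [Function.update_self, hi0]
              simp
            · rw [Function.update_of_ne hi]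
              rcases h7 : w' i with b | l'
              · simp
              · have h8 : l' ≠ j := fun h => hj i (by rw [h7, h])
                have h9 : l' ≠ l := fun h => hi (hu i (by rw [h7, h]))
                simp [Equiv.swap_apply_of_ne_of_ne h8 h9]
        rw [h6, hanti, Equiv.Perm.sign_swap (Ne.symm hlj)]
        simp
      · intro i _ hi
        rw [if_neg]
        exact fun h => hi (hu i h)
      · intro h
        exact absurd (Finset.mem_univ _) h
  rw [Finset.sum_congr rfl fun b _ => heven b, Finset.sum_congr rfl fun l _ => hodd l,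
    Finset.sum_const, Finset.card_univ, Fintype.card_fin] at hval
  have hk : (∑ l : Fin k, if l = j then (0 : ℚ) else - f (Fin.cons (Sum.inr j) w')) =
      -((k : ℚ) - 1) * f (Fin.cons (Sum.inr j) w') := by
    have h10 : ∀ l : Fin k, (if l = j then (0 : ℚ) else - f (Fin.cons (Sum.inr j) w')) =
        - f (Fin.cons (Sum.inr j) w') + (if l = j then f (Fin.cons (Sum.inr j) w') else 0) := by
      intro l
      split_ifs <;> ring
    rw [Finset.sum_congr rfl fun l _ => h10 l, Finset.sum_add_distrib, Finset.sum_const,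
      Finset.card_univ, Fintype.card_fin, Finset.sum_ite_eq', if_pos (Finset.mem_univ _),
      nsmul_eq_mul]
    ring
  rw [hk, nsmul_eq_mul, Pi.smul_apply, smul_eq_mul] at hval
  push_cast at hval
  have h11 : (k : ℚ) * f (Fin.cons (Sum.inr j) w') = 0 := by linarith
  rcases mul_eq_zero.1 h11 with h | h
  · have h12 : k = 0 := by exact_mod_cast h
    subst h12
    exact j.elim0
  · exact hF h

/-- **Brick K0.** -/
theorem t_K0 : S_K0 := by
  intro p k n W hW hne hσ hrep hJ
  by_contra hk
  obtain ⟨f, hf, hf0⟩ := Submodule.exists_mem_ne_zero_of_ne_bot hne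
  apply hf0
  funext w
  by_contra hw
  have hw' : f w ≠ 0 := hw
  obtain ⟨i0, hi0, -⟩ := (hW hf).2 w hw' ⟨0, Nat.pos_of_ne_zero hk⟩
  have hg := hσ (swap 0 i0) f hf
  have h1 := claim (hW hg) (fun a j => hrep a j _ hg) (hJ _ hg) ⟨0, Nat.pos_of_ne_zero hk⟩
    (Fin.tail (w ∘ swap 0 i0))
  have h2 : (Fin.cons (Sum.inr ⟨0, Nat.pos_of_ne_zero hk⟩) (Fin.tail (w ∘ swap 0 i0)) :
      Fin (n + 1) → Fin (p + 1) ⊕ Fin k) = w ∘ swap 0 i0 := by
    have h3 : (w ∘ swap 0 i0) 0 = Sum.inr ⟨0, Nat.pos_of_ne_zero hk⟩ := by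
      simp [hi0]
    rw [← h3]
    exact Fin.cons_self_tail _
  rw [h2, actA_apply] at h1
  apply hw'
  rw [← h1]
  congr 1
  funext x
  simp

end Pool.Agent.K3h72.GG
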